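import Pool.Agent.W236.SC.Defs2

/-!
Project SC, part BASE: basic facts on roots and the form.
-/

set_option autoImplicit false

namespace Pool.Agent.W585.SC

open Pool.Agent.Helper741 Pool.Agent.W236.SC

variable {B : Type*} [Fintype B] [DecidableEq B] {M : CoxeterMatrix B}
variable {W : Type*} [Group W] (cs : CoxeterSystem M W)

lemma coroot_apply (i : B) (y : B → ℝ) : coroot M i y = ∑ j, (-2 * cc M i j) * y j := by
  unfold coroot
  rw [LinearMap.sum_apply]
  rfl

lemma frm_symm' (x y : B → ℝ) : frm M x y = frm M y x := by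
  unfold frm
  simp only [coroot_apply, Finset.mul_sum]
  rw [Finset.sum_comm]
  refine Finset.sum_congr rfl fun j _ => Finset.sum_congr rfl fun i _ => ?_
  rw [cc_symm M i j]
  ring

lemma frm_add' (x y z : B → ℝ) : frm M x (y + z) = frm M x y + frm M x z := by
  unfold frm
  simp only [map_add, mul_add, Finset.sum_add_distrib]

lemma frm_smul' (a : ℝ) (x y : B → ℝ) : frm M x (a • y) = a * frm M x y := by
  unfold frm
  rw [Finset.mul_sum]
  refine Finset.sum_congr rfl fun i _ => ?_
  rw [map_smul, smul_eq_mul]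
  ring

lemma frm_sub' (x y z : B → ℝ) : frm M x (y - z) = frm M x y - frm M x z := by
  unfold frm
  simp only [map_sub, mul_sub, Finset.sum_sub_distrib]

lemma frm_sub_left (x y z : B → ℝ) : frm M (x - y) z = frm M x z - frm M y z := by
  rw [frm_symm', frm_sub', frm_symm' z x, frm_symm' z y]

lemma frm_smul_left (a : ℝ) (x y : B → ℝ) : frm M (a • x) y = a * frm M x y := by
  rw [frm_symm', frm_smul', frm_symm']

lemma frm_ee' (i : B) (x : B → ℝ) : frm M (ee i) x = coroot M i x := by
  unfold frm
  rw [Finset.sum_eq_single i]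
  · simp [ee]
  · intro j _ hj
    simp [ee, Pi.single_apply, hj]
  · intro h
    exact absurd (Finset.mem_univ i) h

lemma frm_ee_ee (i : B) : frm M (ee i) (ee i) = 2 := by
  rw [frm_ee', coroot_ee, cc_self]
  norm_num

lemma frm_geo' (w : W) : ∀ x y, frm M (geo cs w x) (geo cs w y) = frm M x y := by
  refine cs.simple_induction (p := fun w => ∀ x y, frm M (geo cs w x) (geo cs w y) = frm M x y)
    w ?_ ?_ ?_
  · intro i x y
    rw [geo_simple, sg_apply, sg_apply, frm_sub_left, frm_sub', frm_sub', frm_smul', frm_smul_left,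
      frm_smul_left, frm_smul', frm_ee_ee, frm_symm' x (ee i), frm_ee', frm_ee']
    ring
  · intro x y
    rw [map_one, Module.End.one_apply, Module.End.one_apply]
  · intro w w' hw hw' x y
    rw [map_mul, Module.End.mul_apply, Module.End.mul_apply, hw, hw']

lemma rt_sign' (x : B → ℝ) (hx : IsRt cs x) : 0 ≤ x ∨ x ≤ 0 := by
  obtain ⟨w, i, rfl⟩ := hx
  rcases cs.length_mul_simple w i with h | h
  · exact Or.inl (geo_nonneg cs w i (by omega))
  · exact Or.inr (geo_nonpos cs w i (by omega))

lemma rt_norm' (x : B → ℝ) (hx : IsRt cs x) : frm M x x = 2 := by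
  obtain ⟨w, i, rfl⟩ := hx
  rw [frm_geo', frm_ee_ee]

lemma rt_par' (x y : B → ℝ) (a : ℝ) (hx : IsRt cs x) (hy : IsRt cs y) (h : x = a • y) :
    x = y ∨ x = - y := by
  have h1 := rt_norm' cs x hx
  rw [h, frm_smul', frm_smul_left, rt_norm' cs y hy] at h1
  have h2 : (a - 1) * (a + 1) = 0 := by nlinarith
  rcases mul_eq_zero.1 h2 with h3 | h3
  · left
    rw [h, show a = 1 by linarith, one_smul]
  · right
    rw [h, show a = -1 by linarith, neg_one_smul]

lemma rt_supp' (x : B → ℝ) (i : B) (hx : IsRt cs x) (h0 : 0 ≤ x) (hj : ∀ j, j ≠ i → x j = 0) :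
    x = ee i := by
  have h1 : x = x i • ee i := by
    funext j
    by_cases h : j = i
    · subst h
      simp [ee]
    · rw [hj j h]
      simp [ee, Pi.single_apply, h]
  have he : IsRt cs (ee i) := ⟨1, i, by rw [map_one, Module.End.one_apply]⟩
  rcases rt_par' cs x (ee i) (x i) hx he h1 with h2 | h2
  · exact h2
  · exfalso
    have h3 := h0 i
    rw [h2] at h3
    simp [ee] at h3
    linarith

lemma refl' (w : W) (i : B) (x : B → ℝ) : geo cs (w * cs.simple i * w⁻¹) x =
    x - frm M (geo cs w (ee i)) x • geo cs w (ee i) := by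
  rw [map_mul, map_mul, Module.End.mul_apply, Module.End.mul_apply, geo_simple, sg_apply, map_sub,
    geo_apply_inv, map_smul, ← frm_ee', ← frm_geo' cs w (ee i) (geo cs w⁻¹ x), geo_apply_inv]

lemma refl_inj' (w w' : W) (i j : B) : w * cs.simple i * w⁻¹ = w' * cs.simple j * w'⁻¹ ↔
    (geo cs w (ee i) = geo cs w' (ee j) ∨ geo cs w (ee i) = - geo cs w' (ee j)) := by
  constructor
  · intro h
    have h1 := refl' cs w i (geo cs w (ee i))
    rw [h, refl', rt_norm' cs _ ⟨w, i, rfl⟩] at h1
    refine rt_par' cs _ _ (frm M (geo cs w' (ee j)) (geo cs w (ee i)) / 2) ⟨w, i, rfl⟩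
      ⟨w', j, rfl⟩ ?_
    funext k
    have h2 := congrFun h1 k
    simp only [Pi.sub_apply, Pi.smul_apply, smul_eq_mul] at h2 ⊢
    linarith
  · intro h
    apply geo_injective cs
    apply LinearMap.ext
    intro x
    rw [refl', refl']
    rcases h with h | h
    · rw [h]
    · rw [h, ← neg_one_smul ℝ (geo cs w' (ee j)), frm_smul_left, smul_smul]
      congr 2
      ring

theorem base : BaseF cs where
  frm_symm := frm_symm'
  frm_geo := frm_geo' cs
  frm_ee := frm_ee'
  frm_add := frm_add'
  frm_smul := frm_smul'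
  rt_ee i := ⟨1, i, by rw [map_one, Module.End.one_apply]⟩
  rt_geo := by
    rintro w _ ⟨w', i, rfl⟩
    exact ⟨w * w', i, by rw [map_mul, Module.End.mul_apply]⟩
  rt_neg := by
    rintro _ ⟨w, i, rfl⟩
    exact ⟨w * cs.simple i, i, by
      rw [map_mul, Module.End.mul_apply, geo_simple, sg_ee_self, map_neg]⟩
  rt_norm := rt_norm' cs
  rt_sign := rt_sign' cs
  rt_ne := by
    rintro _ ⟨w, i, rfl⟩
    exact geo_ee_ne_zero cs w i
  rt_pos := by
    intro x hx i hi
    rcases rt_sign' cs x hx with h | h
    · exact h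
    · exact absurd (h i) (not_le.2 hi)
  rt_simple := by
    intro x i hx h0 hne
    have h1 : IsRt cs (geo cs (cs.simple i) x) := by
      obtain ⟨w', j, rfl⟩ := hx
      exact ⟨cs.simple i * w', j, by rw [map_mul, Module.End.mul_apply]⟩
    rcases rt_sign' cs _ h1 with h | h
    · exact h
    · exfalso
      apply hne
      refine rt_supp' cs x i hx h0 fun j hj => ?_
      have h2 := h j
      rw [geo_simple, sg_apply] at h2
      simp only [Pi.sub_apply, Pi.smul_apply, ee, Pi.single_apply, hj, if_false, smul_zero,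
        sub_zero, Pi.zero_apply] at h2
      exact le_antisymm h2 (h0 j)
  rt_supp := rt_supp' cs
  rt_par := rt_par' cs
  conj := by
    intro w i j h
    have h1 : w * cs.simple i * w⁻¹ = 1 * cs.simple j * (1 : W)⁻¹ := by
      rw [refl_inj']
      left
      rw [h, map_one, Module.End.one_apply]
    rw [one_mul, inv_one, mul_one] at h1
    rw [← h1, inv_mul_cancel_right]
  refl := refl' cs
  refl_inj := refl_inj' cs

end Pool.Agent.W585.SC

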